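import Pool.Agent.H102R3.LHEnergy

set_option autoImplicit false

/-!
Doubling of the energy of a harmonic function on the layered graph, and the size of the function
in large balls.
-/

namespace Pool.Agent.Y423.LH

open SimpleGraph Finset Pool.H102.LH

/-- the sharp form of the one step inequality -/
theorem growth_sq (f : LV → ℝ) (hf : ∀ v, lap LG f v = 0) (n j : ℕ)
    (hj : ∀ i ≤ j, L (n + i) = j) :
    EE f n ^ 2 ≤ j * (EE f (n + j) - EE f n) * VE f n := by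
  obtain ⟨m, hm⟩ := poincare f n j hj
  have hW' : EE f (n + j) - EE f n = ∑ i ∈ range j, VE f (n + i) := by rw [EE_add]; ring
  have hcs : (EE f n) ^ 2 ≤ (∑ v ∈ lv n, ∑ w ∈ chF v, (f v - m) ^ 2) * VE f n := by
    rw [← flux f hf m n, VE, Finset.sum_sigma', Finset.sum_sigma', Finset.sum_sigma']
    exact Finset.sum_mul_sq_le_sq_mul_sq _ (fun q : (_ : LV) × LV => f q.1 - m)
      (fun q => f q.2 - f q.1)
  have h4 : ∑ v ∈ lv n, ∑ w ∈ chF v, (f v - m) ^ 2 = 4 * ∑ v ∈ lv n, (f v - m) ^ 2 := by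
    rw [Finset.mul_sum]
    refine Finset.sum_congr rfl fun v _ => ?_
    rw [Finset.sum_const, card_chF, nsmul_eq_mul]; norm_num
  rw [h4] at hcs
  rw [← Finset.sum_div] at hm
  rw [hW']
  refine hcs.trans (mul_le_mul_of_nonneg_right ?_ (VE_nonneg f n))
  linarith

theorem EE_nonneg (f : LV → ℝ) (n : ℕ) : 0 ≤ EE f n := Finset.sum_nonneg fun _ _ => VE_nonneg f _

/-- doubling of the energy in a window of constant width -/
theorem double (f : LV → ℝ) (hf : ∀ v, lap LG f v = 0) (m j : ℕ) (hj1 : 1 ≤ j)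
    (hj : ∀ i < 2 * j, L (m + i) = j) : 2 * EE f m ≤ EE f (m + 2 * j) := by
  have hjR : (0 : ℝ) < j := by exact_mod_cast hj1
  -- a level with small energy
  obtain ⟨i, hi, hVi⟩ : ∃ i ∈ range j, VE f (m + i) * j ≤ EE f (m + j) - EE f m := by
    have h1 : ∑ i ∈ range j, VE f (m + i) * j ≤ ∑ _i ∈ range j, (EE f (m + j) - EE f m) := by
      rw [← Finset.sum_mul, sum_const, card_range, nsmul_eq_mul, EE_add]
      linarith
    exact Finset.exists_le_of_sum_le ⟨0, mem_range.mpr (by omega)⟩ h1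
  rw [mem_range] at hi
  have h1 := growth_sq f hf (m + i) j (fun r hr => by
    rw [add_assoc]
    apply hj
    omega)
  set E0 := EE f m with hE0
  set E1 := EE f (m + 2 * j) with hE1
  have e1 : E0 ≤ EE f (m + i) := EE_mono f (by omega)
  have e2 : EE f (m + i + j) ≤ E1 := EE_mono f (by omega)
  have e3 : EE f (m + j) ≤ E1 := EE_mono f (by omega)
  have e0 : 0 ≤ E0 := EE_nonneg f m
  have eV : 0 ≤ VE f (m + i) := VE_nonneg f _
  have e4 : 0 ≤ E1 - E0 := by
    have : E0 ≤ E1 := EE_mono f (by omega)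
    linarith
  have h2 : EE f (m + i) ^ 2 ≤ (E1 - E0) ^ 2 := by
    calc EE f (m + i) ^ 2 ≤ j * (EE f (m + i + j) - EE f (m + i)) * VE f (m + i) := h1
      _ = (EE f (m + i + j) - EE f (m + i)) * (VE f (m + i) * j) := by ring
      _ ≤ (E1 - E0) * (VE f (m + i) * j) :=
          mul_le_mul_of_nonneg_right (by linarith) (by positivity)
      _ ≤ (E1 - E0) * (E1 - E0) := mul_le_mul_of_nonneg_left (by linarith) e4
      _ = (E1 - E0) ^ 2 := by ring
  have h3 : EE f (m + i) ≤ E1 - E0 := (abs_le_of_sq_le_sq' h2 e4).2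
  linarith

theorem L_block (i s : ℕ) (hs : s < 2 ^ i) : L (2 ^ i - 1 + s) = i + 1 := by
  unfold L
  have h0 : 0 < 2 ^ i := by positivity
  have : Nat.log 2 (2 ^ i - 1 + s + 1) = i := by
    rw [Nat.log_eq_iff (Or.inr ⟨by norm_num, by omega⟩)]
    constructor
    · omega
    · rw [pow_succ]; omega
  omega

theorem iter (f : LV → ℝ) (hf : ∀ v, lap LG f v = 0) (i t : ℕ)
    (ht : t * (2 * (i + 1)) ≤ 2 ^ i) :
    2 ^ t * EE f (2 ^ i - 1) ≤ EE f (2 ^ i - 1 + t * (2 * (i + 1))) := by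
  induction t with
  | zero => simp
  | succ t ih =>
    have e1 : (t + 1) * (2 * (i + 1)) = t * (2 * (i + 1)) + 2 * (i + 1) := by ring
    have h2 := ih (by omega)
    have h3 := double f hf (2 ^ i - 1 + t * (2 * (i + 1))) (i + 1) (by omega) (fun r hr => by
      rw [add_assoc]
      apply L_block
      omega)
    rw [e1, ← add_assoc, pow_succ]
    linarith

theorem block (f : LV → ℝ) (hf : ∀ v, lap LG f v = 0) (i : ℕ) :
    2 ^ (2 ^ i / (2 * (i + 1))) * EE f (2 ^ i - 1) ≤ EE f (2 ^ (i + 1) - 1) := by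
  have ht : 2 ^ i / (2 * (i + 1)) * (2 * (i + 1)) ≤ 2 ^ i := Nat.div_mul_le_self _ _
  refine (iter f hf i _ ht).trans (EE_mono f ?_)
  rw [pow_succ]
  omega

/-- the energy is at most the square of the maximum times the number of edges -/
theorem upper (f : LV → ℝ) (B : ℝ) (i : ℕ) (hB : ∀ v : LV, v.1.1 ≤ 2 ^ i → |f v| ≤ B) :
    EE f (2 ^ i - 1) ≤ 16 * B ^ 2 * 8 ^ i := by
  have hB0 : 0 ≤ B := (abs_nonneg _).trans (hB (vt 0 0) (Nat.zero_le _))
  have h1 : ∀ k ∈ range (2 ^ i - 1), VE f k ≤ 16 * B ^ 2 * 4 ^ i := by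
    intro k hk
    have hk' := Finset.mem_range.1 hk
    have ha : a k ≤ 4 ^ i := by
      unfold a
      apply Nat.pow_le_pow_right (by norm_num)
      unfold L
      have : Nat.log 2 (k + 1) < i := Nat.log_lt_of_lt_pow (by omega) (by omega)
      omega
    have h2 : ∀ v ∈ lv k, ∀ w ∈ chF v, (f w - f v) ^ 2 ≤ 4 * B ^ 2 := fun v hv w hw => by
      have hv1 : v.1.1 = k := mem_lv.1 hv
      obtain ⟨c, -, rfl⟩ := mem_chF.1 hw
      have b1 := abs_le.1 (hB v (by omega))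
      have b2 := abs_le.1 (hB (ch v c) (by rw [ch_level]; omega))
      nlinarith
    calc VE f k ≤ ∑ v ∈ lv k, ∑ w ∈ chF v, 4 * B ^ 2 :=
          Finset.sum_le_sum fun v hv => Finset.sum_le_sum fun w hw => h2 v hv w hw
      _ = (a k : ℝ) * (16 * B ^ 2) := by
          rw [Finset.sum_congr rfl (fun v _ => by rw [Finset.sum_const, card_chF]), sum_lv,
            Finset.sum_const, card_range, nsmul_eq_mul, nsmul_eq_mul]
          push_cast
          ring
      _ ≤ (4 ^ i : ℝ) * (16 * B ^ 2) := by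
          refine mul_le_mul_of_nonneg_right ?_ (by positivity)
          exact_mod_cast ha
      _ = 16 * B ^ 2 * 4 ^ i := by ring
  calc EE f (2 ^ i - 1) ≤ ∑ k ∈ range (2 ^ i - 1), 16 * B ^ 2 * 4 ^ i := Finset.sum_le_sum h1
    _ = ((2 ^ i - 1 : ℕ) : ℝ) * (16 * B ^ 2 * 4 ^ i) := by
        rw [Finset.sum_const, card_range, nsmul_eq_mul]
    _ ≤ (2 ^ i : ℝ) * (16 * B ^ 2 * 4 ^ i) := by
        refine mul_le_mul_of_nonneg_right ?_ (by positivity)
        have : 2 ^ i - 1 ≤ 2 ^ i := Nat.sub_le _ _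
        exact_mod_cast this
    _ = 16 * B ^ 2 * 8 ^ i := by
        have : (8:ℝ) ^ i = 2 ^ i * 4 ^ i := by rw [← mul_pow]; norm_num
        rw [this]; ring

/-- the distance to the bottom level -/
theorem near (k : ℕ) : ∀ v : LV, v.1.1 = k → ∃ y < a 0, LG.dist (vt 0 y) v ≤ k := by
  induction k with
  | zero =>
    intro v hv
    refine ⟨v.1.2 % a 0, Nat.mod_lt _ (a_pos 0), ?_⟩
    have h1 : vt 0 (v.1.2 % a 0) = v := by
      have h2 : vt 0 (v.1.2 % a 0) = vt 0 v.1.2 := vt_congr (Nat.mod_mod _ _)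
      have h3 := vt_self v
      rw [hv] at h3
      rw [h2, h3]
    rw [h1, SimpleGraph.dist_self]
  | succ k ih =>
    intro v hv
    set w : LV := vt k (v.1.2 / 4) with hw
    have hvw : v = ch w (v.1.2 % 4) := by
      rw [hw, ch_vt, Nat.div_add_mod, ← hv, vt_self]
    have hadj : LG.Adj w v := by
      have := adj_ch w (c := v.1.2 % 4) (Nat.mod_lt _ (by norm_num))
      rwa [← hvw] at this
    obtain ⟨y, hy, hd⟩ := ih w rfl
    refine ⟨y, hy, ?_⟩
    have h1 := connected.dist_triangle (u := vt 0 y) (v := w) (w := v)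
    have h2 : LG.dist w v = 1 := SimpleGraph.dist_eq_one_iff_adj.2 hadj
    omega

theorem near_o (o : LV) : ∃ c₀ : ℕ, ∀ v : LV, LG.dist o v ≤ v.1.1 + c₀ := by
  refine ⟨∑ y ∈ range (a 0), LG.dist o (vt 0 y), fun v => ?_⟩
  obtain ⟨y, hy, hd⟩ := near v.1.1 v rfl
  have h1 := connected.dist_triangle (u := o) (v := vt 0 y) (w := v)
  have h2 : LG.dist o (vt 0 y) ≤ ∑ y ∈ range (a 0), LG.dist o (vt 0 y) :=
    Finset.single_le_sum (f := fun y => LG.dist o (vt 0 y)) (fun _ _ => Nat.zero_le _)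
      (mem_range.2 hy)
  omega

/-- a non-constant function has positive energy -/
theorem energy_pos (f : LV → ℝ) (h : ∃ x y, f x ≠ f y) : ∃ k, 0 < EE f k := by
  by_contra hcon
  push Not at hcon
  have hV : ∀ k, VE f k = 0 := by
    intro k
    have h1 : VE f k ≤ EE f (k + 1) := by
      have h2 : k ∈ range (k + 1) := by rw [Finset.mem_range]; omega
      exact Finset.single_le_sum (f := fun k => VE f k) (fun k _ => VE_nonneg f k) h2
    exact le_antisymm (h1.trans (hcon _)) (VE_nonneg f k)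
  have hch : ∀ v, ∀ w ∈ chF v, f w = f v := by
    intro v w hw
    have h1 := hV v.1.1
    rw [VE, Finset.sum_eq_zero_iff_of_nonneg
      (fun _ _ => Finset.sum_nonneg fun _ _ => sq_nonneg _)] at h1
    have h2 := h1 v (mem_lv.2 rfl)
    rw [Finset.sum_eq_zero_iff_of_nonneg (fun _ _ => sq_nonneg _)] at h2
    have h3 := h2 w hw
    have := pow_eq_zero_iff (two_ne_zero) |>.1 h3
    linarith
  obtain ⟨x, y, hxy⟩ := h
  refine hxy (const_of_adj LG connected f (fun v w h => ?_) x y)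
  rcases h with h | h
  · exact (hch v w (mem_chF.2 h)).symm
  · exact hch w v (mem_chF.2 h)

lemma pow_big (i : ℕ) (hi : 12 ≤ i) : (i + 1) ^ 3 ≤ 2 ^ i := by
  induction i, hi using Nat.le_induction with
  | base => norm_num
  | succ n hn ih =>
    obtain ⟨m, rfl⟩ := Nat.exists_eq_add_of_le hn
    have h1 : 2 * (12 + m + 1) ^ 3 =
        (12 + m + 1 + 1) ^ 3 + (m ^ 3 + 36 * m ^ 2 + 426 * m + 1650) := by ring
    rw [pow_succ 2 (12 + m)]
    omega

lemma two_pow_ge (N : ℕ) (x : ℝ) (hx : 0 ≤ x) (h : x ≤ N) :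
    Real.exp (0.69 * x) ≤ 2 ^ N := by
  have h1 : (2 : ℝ) ^ N = Real.exp (N * Real.log 2) := by
    rw [Real.exp_nat_mul, Real.exp_log (by norm_num)]
  rw [h1]
  apply Real.exp_le_exp.2
  have h2 : (0.69 : ℝ) ≤ Real.log 2 := by linarith [Real.log_two_gt_d9]
  calc 0.69 * x ≤ Real.log 2 * N := mul_le_mul h2 h hx (by linarith)
    _ = N * Real.log 2 := mul_comm _ _

lemma exp_cmp (Q s K : ℝ) (h : 100 * (K + 3) * s ≤ Q) (hs : 13 ≤ s) (hK : 0 ≤ K) :
    2 * (12 / 100 * Q) + 3 * s + K + 0.69 ≤ 0.69 * (Q / 2) := by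
  have h1 : K * 13 ≤ K * s := mul_le_mul_of_nonneg_left hs hK
  linarith

lemma floor_aux (i N : ℕ) (Q : ℝ) (hQ : Q = 2 ^ i / ((i : ℝ) + 1))
    (h : 2 ^ i < N * (2 * (i + 1)) + 2 * (i + 1)) : Q / 2 - 1 ≤ (N : ℝ) := by
  have hi1 : (0 : ℝ) < (i : ℝ) + 1 := by positivity
  have h2 : ((2 ^ i : ℕ) : ℝ) < ((N * (2 * (i + 1)) + 2 * (i + 1) : ℕ) : ℝ) := by
    exact_mod_cast h
  push_cast at h2
  have h3 : Q < 2 * ((N : ℝ) + 1) := by
    rw [hQ, div_lt_iff₀ hi1]
    linarith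
  linarith

/-- the numerical comparison for large `i` -/
lemma compare (e0 : ℝ) (he0 : 0 < e0) : ∃ i₀ : ℕ, ∀ i : ℕ, i₀ ≤ i →
    16 * Real.exp (2 * (12 / 100 * (2 ^ i / ((i : ℝ) + 1)))) * 8 ^ (i + 1) <
      2 ^ (2 ^ i / (2 * (i + 1))) * e0 := by
  obtain ⟨K, hK⟩ := exists_nat_gt (Real.log (32 / e0))
  refine ⟨max 12 (100 * (K + 3)), fun i hi => ?_⟩
  have hi12 : 12 ≤ i := (le_max_left _ _).trans hi
  have hiK : 100 * (K + 3) ≤ i := (le_max_right _ _).trans hi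
  set Q : ℝ := 2 ^ i / ((i : ℝ) + 1) with hQ
  have hi1 : (0 : ℝ) < (i : ℝ) + 1 := by positivity
  have hQ1 : ((i : ℝ) + 1) ^ 2 ≤ Q := by
    rw [hQ, le_div_iff₀ hi1]
    have := pow_big i hi12
    have h2 : (((i + 1) ^ 3 : ℕ) : ℝ) ≤ ((2 ^ i : ℕ) : ℝ) := by exact_mod_cast this
    push_cast at h2
    calc ((i : ℝ) + 1) ^ 2 * ((i : ℝ) + 1) = ((i : ℝ) + 1) ^ 3 := by ring
      _ ≤ 2 ^ i := h2
  -- the power of two
  have ht : Q / 2 - 1 ≤ ((2 ^ i / (2 * (i + 1)) : ℕ) : ℝ) := by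
    have h1 := Nat.lt_div_mul_add (a := 2 ^ i) (b := 2 * (i + 1)) (by omega)
    exact floor_aux i _ Q hQ h1
  have hpow : Real.exp (0.69 * (Q / 2 - 1)) ≤ 2 ^ (2 ^ i / (2 * (i + 1))) := by
    refine two_pow_ge _ _ ?_ ht
    have h2 : 0 ≤ Q / 2 - 1 := by
      have h12 : (12 : ℝ) ≤ i := by exact_mod_cast hi12
      have h169 : (13 : ℝ) ^ 2 ≤ ((i : ℝ) + 1) ^ 2 :=
        pow_le_pow_left₀ (by norm_num) (by linarith) 2
      linarith
    exact h2
  have h8 : (8 : ℝ) ^ (i + 1) ≤ Real.exp (3 * ((i : ℝ) + 1)) := by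
    have h1 : Real.exp (3 * ((i : ℝ) + 1)) = Real.exp 3 ^ (i + 1) := by
      rw [← Real.exp_nat_mul]; push_cast; ring_nf
    rw [h1]
    apply pow_le_pow_left₀ (by norm_num)
    have h2 : Real.exp 3 = Real.exp 1 ^ 3 := by rw [← Real.exp_nat_mul]; norm_num
    rw [h2]
    have h3 : (2 : ℝ) ^ 3 ≤ Real.exp 1 ^ 3 := pow_le_pow_left₀ (by norm_num)
      (by linarith [Real.exp_one_gt_d9]) 3
    linarith
  have h32 : 32 / e0 < Real.exp K := by
    rw [← Real.log_lt_iff_lt_exp (by positivity)]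
    exact hK
  have h32' : 32 < Real.exp K * e0 := by rwa [div_lt_iff₀ he0] at h32
  -- comparison of exponents
  have hexp : 2 * (12 / 100 * Q) + 3 * ((i : ℝ) + 1) + K + 0.69 ≤ 0.69 * (Q / 2) := by
    have h1 : (100 : ℝ) * (K + 3) ≤ i := by exact_mod_cast hiK
    have h3 : 100 * ((K : ℝ) + 3) * ((i : ℝ) + 1) ≤ Q := by
      refine le_trans ?_ hQ1
      rw [pow_two]
      exact mul_le_mul_of_nonneg_right (by linarith) hi1.le
    have hKK : (0 : ℝ) ≤ K := Nat.cast_nonneg K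
    have h12 : (12 : ℝ) ≤ i := by exact_mod_cast hi12
    exact exp_cmp Q ((i : ℝ) + 1) K h3 (by linarith) hKK
  calc 16 * Real.exp (2 * (12 / 100 * Q)) * 8 ^ (i + 1)
      ≤ 16 * Real.exp (2 * (12 / 100 * Q)) * Real.exp (3 * ((i : ℝ) + 1)) :=
        mul_le_mul_of_nonneg_left h8 (by positivity)
    _ < (Real.exp K * e0) * Real.exp (2 * (12 / 100 * Q)) * Real.exp (3 * ((i : ℝ) + 1)) := by
        have h1 : 0 < Real.exp (2 * (12 / 100 * Q)) * Real.exp (3 * ((i : ℝ) + 1)) := by positivity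
        have h2 := mul_lt_mul_of_pos_right (show (16 : ℝ) < Real.exp K * e0 by linarith) h1
        linarith
    _ = Real.exp (2 * (12 / 100 * Q) + 3 * ((i : ℝ) + 1) + K) * e0 := by
        rw [Real.exp_add, Real.exp_add]; ring
    _ ≤ Real.exp (0.69 * (Q / 2 - 1)) * e0 :=
        mul_le_mul_of_nonneg_right (Real.exp_le_exp.2 (by linarith)) he0.le
    _ ≤ 2 ^ (2 ^ i / (2 * (i + 1))) * e0 := mul_le_mul_of_nonneg_right hpow he0.le

/-- Every non-constant harmonic function is large in every large ball. -/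
theorem main (f : LV → ℝ) (hf : ∀ v, lap LG f v = 0) (hne : ∃ x y, f x ≠ f y) (o : LV) :
    ∃ n₀ : ℕ, ∀ n : ℕ, n₀ ≤ n →
      ∃ x, LG.dist o x ≤ n ∧ Real.exp ((n : ℝ) / (100 * Real.log n)) ≤ |f x| := by
  obtain ⟨k₀, hk₀⟩ := energy_pos f hne
  obtain ⟨c₀, hc₀⟩ := near_o o
  obtain ⟨i₀, hi₀⟩ := compare (EE f k₀) hk₀
  set I := max i₀ (k₀ + c₀ + 12) with hI
  refine ⟨2 ^ (I + 2), fun n hn => ?_⟩
  by_contra hcon
  push Not at hcon
  -- the block
  have hn0 : n ≠ 0 := by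
    have : 0 < 2 ^ (I + 2) := by positivity
    omega
  have hlog : I + 2 ≤ Nat.log 2 n := Nat.le_log_of_pow_le (by norm_num) hn
  set i := Nat.log 2 n - 2 with hi
  have hIi : I ≤ i := by omega
  have hi2 : Nat.log 2 n = i + 2 := by omega
  have hn1 : 2 ^ (i + 2) ≤ n := by rw [← hi2]; exact Nat.pow_log_le_self 2 hn0
  have hn2 : n < 2 ^ (i + 3) := by
    have := Nat.lt_pow_succ_log_self (b := 2) (by norm_num) n
    rw [hi2] at this
    exact this
  have hci : c₀ ≤ 2 ^ (i + 1) := by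
    have h1 : i + 1 < 2 ^ (i + 1) := Nat.lt_two_pow_self
    have h2 : k₀ + c₀ + 12 ≤ I := le_max_right _ _
    omega
  have hki : k₀ ≤ 2 ^ i - 1 := by
    have h1 : i < 2 ^ i := Nat.lt_two_pow_self
    have h2 : k₀ + c₀ + 12 ≤ I := le_max_right _ _
    omega
  set B := Real.exp ((n : ℝ) / (100 * Real.log n)) with hB
  have hbd : ∀ v : LV, v.1.1 ≤ 2 ^ (i + 1) → |f v| ≤ B := by
    intro v hv
    refine (hcon v ?_).le
    have h1 := hc₀ v
    have h2 : 2 ^ (i + 2) = 2 ^ (i + 1) + 2 ^ (i + 1) := by rw [pow_succ 2 (i + 1)]; ring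
    omega
  have hup := upper f B (i + 1) hbd
  have hlow := block f hf i
  have hmono : EE f k₀ ≤ EE f (2 ^ i - 1) := EE_mono f hki
  have hcmp := hi₀ i ((le_max_left _ _).trans hIi)
  -- bound for `B`
  have hBB : B ^ 2 ≤ Real.exp (2 * (12 / 100 * (2 ^ i / ((i : ℝ) + 1)))) := by
    rw [hB, ← Real.exp_nat_mul]
    apply Real.exp_le_exp.2
    push_cast
    apply mul_le_mul_of_nonneg_left _ (by norm_num)
    have hi1 : (0 : ℝ) < (i : ℝ) + 1 := by positivity
    have g1 : (n : ℝ) ≤ 8 * 2 ^ i := by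
      have : ((n : ℕ) : ℝ) ≤ ((2 ^ (i + 3) : ℕ) : ℝ) := by exact_mod_cast hn2.le
      push_cast at this
      rw [pow_add] at this
      linarith
    have g2 : 2 / 3 * ((i : ℝ) + 1) ≤ Real.log n := by
      have g3 : Real.log ((2 : ℝ) ^ (i + 2)) ≤ Real.log n :=
        Real.log_le_log (by positivity) (by exact_mod_cast hn1)
      rw [Real.log_pow] at g3
      push_cast at g3
      have g4 : (2 / 3 : ℝ) ≤ Real.log 2 := by linarith [Real.log_two_gt_d9]
      have g5 : 2 / 3 * ((i : ℝ) + 1) ≤ Real.log 2 * ((i : ℝ) + 2) :=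
        mul_le_mul g4 (by linarith) hi1.le (by linarith)
      linarith
    calc (n : ℝ) / (100 * Real.log n) ≤ (8 * 2 ^ i) / (100 * (2 / 3 * ((i : ℝ) + 1))) :=
          div_le_div₀ (by positivity) g1 (by positivity)
            (mul_le_mul_of_nonneg_left g2 (by norm_num))
      _ = 12 / 100 * (2 ^ i / ((i : ℝ) + 1)) := by
          field_simp
          ring
  have hfin : (2 : ℝ) ^ (2 ^ i / (2 * (i + 1))) * EE f k₀ ≤
      16 * Real.exp (2 * (12 / 100 * (2 ^ i / ((i : ℝ) + 1)))) * 8 ^ (i + 1) := by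
    calc (2 : ℝ) ^ (2 ^ i / (2 * (i + 1))) * EE f k₀
        ≤ 2 ^ (2 ^ i / (2 * (i + 1))) * EE f (2 ^ i - 1) :=
          mul_le_mul_of_nonneg_left hmono (by positivity)
      _ ≤ EE f (2 ^ (i + 1) - 1) := hlow
      _ ≤ 16 * B ^ 2 * 8 ^ (i + 1) := hup
      _ ≤ _ := by
          apply mul_le_mul_of_nonneg_right _ (by positivity)
          exact mul_le_mul_of_nonneg_left hBB (by norm_num)
  linarith

end Pool.Agent.Y423.LH
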